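import Pool.Agent.Q190.TW.Heat

/-!
# MP_6efe58_an, Q1 (full positive answer): heat smoothing into `CF` for all groups without (T)

`G` is an infinite discrete group, `σ ∈ Z²(G, 𝕋)` a normalized 2-cocycle. The definitions are the ones
of the problem file. In `Pool/Agent/Q190/TW/Defs.lean`: `Cocycle G` (normalized 2-cocycles),
`lam σ g = Λ_σ(g)` on `ell2 G = ℓ²(G)`, `Bd G = B(ℓ²(G))`, `fourier x g = x̂(g) = (x δ_e)(g)`, `ND0 d`
(`d ∈ ND_0^+(G)`). Below: `InCr σ x` (`x ∈ C_r^*(G, σ)`, norm closure of the span of the `Λ_σ(g)`),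
`InVN σ x` (`x ∈ vN(G, σ)`, closure of the span in the weak operator topology of Mathlib), `IsCF σ x`
(`x ∈ C_r^*(G, σ)` and the Fourier series of `x` converges unconditionally in operator norm).

We prove: if `G` does not have property (T), then for every `σ` there are `d ∈ ND_0^+(G)` and
`x₀ ∈ C_r^*(G, σ) \ CF(G, σ)` with `M̃_t^d(x₀) ∈ CF(G, σ)` for all `t > 0`; in particular `(G, σ)` has
the weak heat property. Any unbounded `d ∈ ND_0^+(G)` can be used.
-/

set_option autoImplicit false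

namespace Pool.Agent.Results.MP_6efe58_an.WeakHeatWithoutT

open Pool.Agent.Q190.TW

/-- `G` has property (T) iff every `d ∈ ND_0^+(G)` is bounded. -/
def PropertyT (G : Type) [Group G] : Prop :=
  ∀ d : G → ℝ, ND0 d → BddAbove (Set.range d)

/-- (an instance of Mathlib, named to keep the terms below short) -/
instance smulComm (G : Type) : SMulCommClass ℂ ℂ (ell2 G) := inferInstance

/-- the span of the operators `Λ_σ(g)`, `g ∈ G` -/
def spanLam {G : Type} [Group G] (σ : Cocycle G) : Set (Bd G) :=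
  {y | ∃ (A : Finset G) (c : G → ℂ), y = ∑ a ∈ A, c a • lam σ a}

/-- `x ∈ C_r^*(G, σ)`: the closure of the span in the operator norm -/
def InCr {G : Type} [Group G] (σ : Cocycle G) (x : Bd G) : Prop := x ∈ closure (spanLam σ)

/-- `B(ℓ²(G))` with the weak operator topology -/
abbrev BdWOT (G : Type) : Type := ell2 G →WOT[ℂ] ell2 G

/-- the weak operator topology -/
noncomputable instance topWOT (G : Type) : TopologicalSpace (BdWOT G) :=
  ContinuousLinearMapWOT.instTopologicalSpace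

/-- the identity map from `B(ℓ²(G))` to `B(ℓ²(G))` with the weak operator topology -/
def toWOT {G : Type} (x : Bd G) : BdWOT G := ContinuousLinearMapWOT.ofCLM x

/-- `x ∈ vN(G, σ)`: the closure of the span in the weak operator topology -/
def InVN {G : Type} [Group G] (σ : Cocycle G) (x : Bd G) : Prop :=
  toWOT x ∈ closure (toWOT '' spanLam σ)

/-- `x ∈ CF(G, σ)`: `x ∈ C_r^*(G, σ)` and the Fourier series `∑_g x̂(g) Λ_σ(g)` converges in operator
norm as an unordered sum. -/
def IsCF {G : Type} [Group G] (σ : Cocycle G) (x : Bd G) : Prop :=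
  InCr σ x ∧ Summable fun g => fourier x g • lam σ g

/-- `a x + b y`, for operators `x, y` and complex numbers `a, b` -/
noncomputable def comb {G : Type} [Group G] (a b : ℂ) (x y : Bd G) : Bd G := a • x + b • y

/-- the operator norm -/
noncomputable def nrm {G : Type} [Group G] (x : Bd G) : ℝ := ‖x‖

/-- `M` (restricted to `vN(G, σ)`) is a bounded linear map `vN(G, σ) → vN(G, σ)` with
`M(Λ_σ(g)) = e^{-t d(g)} Λ_σ(g)` for all `g`. The heat operator `M̃_t^d` of the problem is the normal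
map with this property. -/
structure IsHeatOperator {G : Type} [Group G] (σ : Cocycle G) (d : G → ℝ) (t : ℝ)
    (M : Bd G → Bd G) : Prop where
  maps : ∀ x, InVN σ x → InVN σ (M x)
  linear : ∀ (a b : ℂ) (x y : Bd G), InVN σ x → InVN σ y →
    M (comb a b x y) = comb a b (M x) (M y)
  bounded : ∃ C : ℝ, ∀ x, InVN σ x → nrm (M x) ≤ C * nrm x
  lam : ∀ g, M (lam σ g) = comb (Real.exp (-t * d g)) 0 (lam σ g) (lam σ g)

/-- `x₀ ∈ C_r^*(G, σ) \ CF(G, σ)`, and for every `t > 0` the element with Fourier coefficients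
`e^{-t d(g)} x̂₀(g)` exists and is in `CF(G, σ)`, and it is the image of `x₀` under every bounded linear
map `M` of `vN(G, σ)` with `M(Λ_σ(g)) = e^{-t d(g)} Λ_σ(g)` (so under `M̃_t^d`). -/
def Smoothed {G : Type} [Group G] (σ : Cocycle G) (d : G → ℝ) (x₀ : Bd G) : Prop :=
  InCr σ x₀ ∧ ¬ IsCF σ x₀ ∧ ∀ t : ℝ, 0 < t → ∃ y : Bd G, IsCF σ y ∧
    (∀ g, fourier y g = (Real.exp (-t * d g) : ℂ) * fourier x₀ g) ∧
    ∀ M : Bd G → Bd G, IsHeatOperator σ d t M → M x₀ = y

lemma spanLam_eq {G : Type} [Group G] (σ : Cocycle G) :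
    spanLam σ = ((Submodule.span ℂ (Set.range (lam σ)) : Submodule ℂ (Bd G)) : Set (Bd G)) := by
  ext y
  constructor
  · rintro ⟨A, c, rfl⟩
    exact Submodule.sum_mem _ fun a _ => Submodule.smul_mem _ _ (Submodule.subset_span ⟨a, rfl⟩)
  · intro hy
    obtain ⟨c, hc⟩ := Finsupp.mem_span_range_iff_exists_finsupp.1 hy
    exact ⟨c.support, c, hc.symm⟩

lemma inVN_iff {G : Type} [Group G] (σ : Cocycle G) (x : Bd G) : InVN σ x ↔ x ∈ vN σ := by
  unfold InVN
  rw [spanLam_eq]
  exact Iff.rfl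

lemma inCr_iff {G : Type} [Group G] (σ : Cocycle G) (x : Bd G) :
    InCr σ x ↔ x ∈ reducedCstar σ := by
  unfold InCr
  rw [spanLam_eq]
  exact Iff.rfl

lemma isCF_iff {G : Type} [Group G] (σ : Cocycle G) (x : Bd G) : IsCF σ x ↔ InCF σ x :=
  and_congr (inCr_iff σ x) Iff.rfl

/-- **Full positive answer to Q1.** (1) If the infinite group `G` does not have property (T), then for
every `σ ∈ Z²(G, 𝕋)` there are `d ∈ ND_0^+(G)` and `x₀ ∈ C_r^*(G, σ) \ CF(G, σ)` such that
`M̃_t^d(x₀) ∈ CF(G, σ)` for all `t > 0`. (2) Indeed every unbounded `d ∈ ND_0^+(G)` has such an `x₀`. -/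
theorem result (G : Type) [Group G] [Infinite G] (σ : Cocycle G) :
    (¬ PropertyT G → ∃ d : G → ℝ, ND0 d ∧ ∃ x₀ : Bd G, Smoothed σ d x₀) ∧
    (∀ d : G → ℝ, ND0 d → ¬ BddAbove (Set.range d) → ∃ x₀ : Bd G, Smoothed σ d x₀) := by
  have main : ∀ d : G → ℝ, ND0 d → ¬ BddAbove (Set.range d) → ∃ x₀ : Bd G, Smoothed σ d x₀ := by
    intro d hd hu
    obtain ⟨x, hx, hCF, hs⟩ := exists_heat σ hd hu
    refine ⟨x, (inCr_iff σ x).2 hx, (isCF_iff σ x).not.2 hCF, fun t ht => ?_⟩
    obtain ⟨y, hy, hfy⟩ := inCF_of_summable σ (hs t ht)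
    refine ⟨y, (isCF_iff σ y).2 hy, hfy, fun M hM => ?_⟩
    obtain ⟨C, hC⟩ := hM.bounded
    have hadd : ∀ u v : vN σ, M (u + v : Bd G) = M u + M v := by
      intro u v
      have h1 := hM.linear 1 1 u v ((inVN_iff σ _).2 u.2) ((inVN_iff σ _).2 v.2)
      simpa only [comb, one_smul] using h1
    have hsmul : ∀ (a : ℂ) (u : vN σ), M (a • (u : Bd G)) = a • M u := by
      intro a u
      have h1 := hM.linear a 0 u u ((inVN_iff σ _).2 u.2) ((inVN_iff σ _).2 u.2)
      simpa only [comb, zero_smul, add_zero] using h1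
    let M' : vN σ →L[ℂ] vN σ := LinearMap.mkContinuous
      { toFun := fun u => ⟨M u, (inVN_iff σ _).1 (hM.maps u ((inVN_iff σ _).2 u.2))⟩
        map_add' := fun u v => Subtype.ext (hadd u v)
        map_smul' := fun a u => Subtype.ext (hsmul a u) } C
          (fun u => hC u ((inVN_iff σ _).2 u.2))
    refine ext_fourier σ ((inVN_iff σ _).1
      (hM.maps x ((inVN_iff σ _).2 (reducedCstar_le_vN σ hx)))) (reducedCstar_le_vN σ hy.1)
      fun g => ?_
    rw [hfy g]
    refine fourier_multiplier σ (fun g => (Real.exp (-t * d g) : ℂ)) M' (fun g => ?_) hx g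
    have h1 := hM.lam g
    simp only [comb, zero_smul, add_zero] at h1
    exact h1
  refine ⟨fun hT => ?_, main⟩
  unfold PropertyT at hT
  push Not at hT
  obtain ⟨d, hd, hu⟩ := hT
  exact ⟨d, hd, main d hd hu⟩

end Pool.Agent.Results.MP_6efe58_an.WeakHeatWithoutT
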